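import Pool.Agent.Helper50_PN.Stmts

/-!
# Squad PN, module EXP: the monomials which occur in the substitution of a block
-/

set_option autoImplicit false

open MvPolynomial

namespace Pool.Agent.PN.H96

open Pool.Agent.PN

section grading

variable {V : Type}

/-- all monomials have weight at least `c` -/
def Ge (w : V → ℤ) (c : ℤ) (P : MvPolynomial V ℤ) : Prop :=
  ∀ s ∈ P.support, c ≤ s.sum (fun v e => (e : ℤ) * w v)

variable {w : V → ℤ}

theorem Ge.mono {c c' : ℤ} {P : MvPolynomial V ℤ} (h : Ge w c P) (hc : c' ≤ c) : Ge w c' P :=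
  fun s hs => hc.trans (h s hs)

theorem ge_zero (c : ℤ) : Ge w c (0 : MvPolynomial V ℤ) := by
  intro s hs
  simp at hs

theorem Ge.add {c : ℤ} {P Q : MvPolynomial V ℤ} (h1 : Ge w c P) (h2 : Ge w c Q) :
    Ge w c (P + Q) := by
  classical
  intro s hs
  rcases Finset.mem_union.mp (support_add hs) with h | h
  · exact h1 s h
  · exact h2 s h

theorem Ge.neg {c : ℤ} {P : MvPolynomial V ℤ} (h1 : Ge w c P) : Ge w c (-P) := by
  intro s hs
  rw [support_neg] at hs
  exact h1 s hs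

theorem Ge.sub {c : ℤ} {P Q : MvPolynomial V ℤ} (h1 : Ge w c P) (h2 : Ge w c Q) :
    Ge w c (P - Q) := by
  rw [sub_eq_add_neg]
  exact h1.add h2.neg

theorem Ge.mul {c c' : ℤ} {P Q : MvPolynomial V ℤ} (h1 : Ge w c P) (h2 : Ge w c' Q) :
    Ge w (c + c') (P * Q) := by
  classical
  intro s hs
  obtain ⟨s1, hs1, s2, hs2, rfl⟩ := Finset.mem_add.mp (support_mul P Q hs)
  rw [Finsupp.sum_add_index' (fun v => by simp) (fun v a b => by push_cast; ring)]
  exact add_le_add (h1 s1 hs1) (h2 s2 hs2)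

theorem ge_one : Ge w 0 (1 : MvPolynomial V ℤ) := by
  classical
  intro s hs
  have : s = 0 := by
    by_contra h
    rw [mem_support_iff, MvPolynomial.coeff_one, if_neg (Ne.symm h)] at hs
    exact hs rfl
  rw [this]
  simp

theorem Ge.pow {c : ℤ} {P : MvPolynomial V ℤ} (h1 : Ge w c P) (e : ℕ) :
    Ge w (e * c) (P ^ e) := by
  induction e with
  | zero =>
    rw [pow_zero, Nat.cast_zero, zero_mul]
    exact ge_one
  | succ e ih =>
    rw [pow_succ, Nat.cast_succ, add_mul, one_mul]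
    exact ih.mul h1

theorem ge_prod {ι : Type} (S : Finset ι) (f : ι → MvPolynomial V ℤ) (c : ι → ℤ)
    (h : ∀ i ∈ S, Ge w (c i) (f i)) : Ge w (∑ i ∈ S, c i) (∏ i ∈ S, f i) := by
  classical
  induction S using Finset.induction_on with
  | empty =>
    rw [Finset.sum_empty, Finset.prod_empty]
    exact ge_one
  | insert a S ha ih =>
    rw [Finset.sum_insert ha, Finset.prod_insert ha]
    exact (h a (Finset.mem_insert_self _ _)).mul
      (ih fun i hi => h i (Finset.mem_insert_of_mem hi))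

theorem ge_sum {ι : Type} (S : Finset ι) (f : ι → MvPolynomial V ℤ) (c : ℤ)
    (h : ∀ i ∈ S, Ge w c (f i)) : Ge w c (∑ i ∈ S, f i) := by
  classical
  induction S using Finset.induction_on with
  | empty =>
    rw [Finset.sum_empty]
    exact ge_zero c
  | insert a S ha ih =>
    rw [Finset.sum_insert ha]
    exact (h a (Finset.mem_insert_self _ _)).add
      (ih fun i hi => h i (Finset.mem_insert_of_mem hi))

theorem ge_X (v : V) : Ge w (w v) (X v : MvPolynomial V ℤ) := by
  classical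
  intro s hs
  rw [mem_support_iff, MvPolynomial.coeff_X] at hs
  have : Finsupp.single v 1 = s := by
    by_contra h
    rw [if_neg h] at hs
    exact hs rfl
  rw [← this, Finsupp.sum_single_index (by simp)]
  simp

end grading

section

variable {n N k : ℕ}

theorem coeff_gen (l : Fin n) (s : Fin (k + 1)) :
    PowerSeries.coeff (s : ℕ) (gen (N := N) (k := k) l) = X (Sum.inr (l, s)) := by
  rw [gen, PowerSeries.coeff_mk, dif_pos s.2]

theorem psi_inl (I : Finset (Fin n)) (i₀ : Fin n) (j : Fin n → Fin N) (q : Fin n × Fin N) :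
    psi (k := k) I i₀ j (X (Sum.inl q)) = X (Sum.inl q) := by
  unfold psi
  rw [aeval_X]
  rfl

open Classical in
theorem psi_inr (I : Finset (Fin n)) (i₀ : Fin n) (j : Fin n → Fin N) (p : Fin n × Fin (k + 1)) :
    psi (k := k) I i₀ j (X (Sum.inr p)) =
      if p.1 = i₀ then
        PowerSeries.coeff (p.2 : ℕ) (PowerSeries.C (X (Sum.inl (i₀, j i₀))) + gen i₀)
      else if p.1 ∈ I then
        PowerSeries.coeff (p.2 : ℕ) (PowerSeries.C (X (Sum.inl (p.1, j p.1))) + gen p.1 * gen i₀)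
      else X (Sum.inr p) := by
  unfold psi
  rw [aeval_X]
  rfl

theorem psi_i₀_zero (I : Finset (Fin n)) (i₀ : Fin n) (j : Fin n → Fin N) :
    psi (k := k) I i₀ j (X (Sum.inr (i₀, 0))) = X (Sum.inl (i₀, j i₀)) + X (Sum.inr (i₀, 0)) := by
  classical
  rw [psi_inr, if_pos rfl, map_add, coeff_gen]
  congr 1
  exact PowerSeries.coeff_zero_C _

theorem psi_i₀_pos (I : Finset (Fin n)) (i₀ : Fin n) (j : Fin n → Fin N) (s : Fin (k + 1))
    (hs : s ≠ 0) : psi (k := k) I i₀ j (X (Sum.inr (i₀, s))) = X (Sum.inr (i₀, s)) := by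
  classical
  have h0 : (s : ℕ) ≠ 0 := fun h => hs (Fin.ext h)
  rw [psi_inr, if_pos rfl, map_add, coeff_gen, PowerSeries.coeff_C, if_neg h0, zero_add]

theorem psi_mem_zero (I : Finset (Fin n)) (i₀ : Fin n) (j : Fin n → Fin N) (l : Fin n)
    (hl : l ∈ I) (hl0 : l ≠ i₀) :
    psi (k := k) I i₀ j (X (Sum.inr (l, 0))) =
      X (Sum.inl (l, j l)) + X (Sum.inr (l, 0)) * X (Sum.inr (i₀, 0)) := by
  classical
  rw [psi_inr, if_neg hl0, if_pos hl, map_add]
  show PowerSeries.coeff 0 (PowerSeries.C (X (Sum.inl (l, j l)))) +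
    PowerSeries.coeff 0 (gen l * gen i₀) = _
  rw [PowerSeries.coeff_zero_C, PowerSeries.coeff_mul, Finset.Nat.antidiagonal_zero,
    Finset.sum_singleton]
  have h1 : PowerSeries.coeff 0 (gen (N := N) (k := k) l) = X (Sum.inr (l, 0)) :=
    coeff_gen l 0
  have h2 : PowerSeries.coeff 0 (gen (N := N) (k := k) i₀) = X (Sum.inr (i₀, 0)) :=
    coeff_gen i₀ 0
  rw [h1, h2]

theorem psi_mem_pos (I : Finset (Fin n)) (i₀ : Fin n) (j : Fin n → Fin N) (l : Fin n)
    (hl : l ∈ I) (hl0 : l ≠ i₀) (s : Fin (k + 1)) (hs : s ≠ 0) :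
    psi (k := k) I i₀ j (X (Sum.inr (l, s))) =
      ∑ x ∈ Finset.HasAntidiagonal.antidiagonal (s : ℕ), PowerSeries.coeff x.1 (gen (N := N) (k := k) l) *
        PowerSeries.coeff x.2 (gen i₀) := by
  classical
  have h0 : (s : ℕ) ≠ 0 := fun h => hs (Fin.ext h)
  rw [psi_inr, if_neg hl0, if_pos hl, map_add, PowerSeries.coeff_C, if_neg h0, zero_add,
    PowerSeries.coeff_mul]

theorem psi_notMem (I : Finset (Fin n)) (i₀ : Fin n) (h0 : i₀ ∈ I) (j : Fin n → Fin N) (l : Fin n)
    (hl : l ∉ I) (s : Fin (k + 1)) :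
    psi (k := k) I i₀ j (X (Sum.inr (l, s))) = X (Sum.inr (l, s)) := by
  classical
  have hl0 : l ≠ i₀ := fun h => hl (h ▸ h0)
  rw [psi_inr, if_neg hl0, if_neg hl]

/-- the conditions on the lower bounds -/
structure Adm (I : Finset (Fin n)) (i₀ : Fin n) (w : Sig n N k → ℤ)
    (g : Fin n × Fin (k + 1) → ℤ) (h : Fin n → ℤ) : Prop where
  inl : ∀ q, w (Sum.inl q) = 0
  z0 : g (i₀, 0) ≤ 0
  z1 : g (i₀, 0) ≤ w (Sum.inr (i₀, 0))
  z2 : ∀ s, s ≠ 0 → g (i₀, s) ≤ w (Sum.inr (i₀, s))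
  m0 : ∀ i ∈ I, i ≠ i₀ → g (i, 0) ≤ 0
  m1 : ∀ i ∈ I, i ≠ i₀ → ∀ s p q : Fin (k + 1), (p : ℕ) + q = s →
    g (i, s) ≤ w (Sum.inr (i, p)) + w (Sum.inr (i₀, q))
  n0 : ∀ l ∉ I, ∀ s, g (l, s) ≤ w (Sum.inr (l, s))
  h0 : h i₀ = w (Sum.inr (i₀, 0))
  h1 : ∀ i ∈ I, i ≠ i₀ → h i = w (Sum.inr (i, 0)) + w (Sum.inr (i₀, 0))
  hp : ∀ i ∈ I, 0 ≤ h i

variable {I : Finset (Fin n)} {i₀ : Fin n} {w : Sig n N k → ℤ} {g : Fin n × Fin (k + 1) → ℤ}
  {h : Fin n → ℤ}

theorem Adm.geX (H : Adm I i₀ w g h) (h0 : i₀ ∈ I) (j : Fin n → Fin N)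
    (p : Fin n × Fin (k + 1)) : Ge w (g p) (psi (k := k) I i₀ j (X (Sum.inr p))) := by
  obtain ⟨l, s⟩ := p
  have hin : ∀ q, Ge w 0 (X (Sum.inl q) : Pol n N k) := by
    intro q
    have := ge_X (w := w) (Sum.inl q)
    rwa [H.inl] at this
  by_cases hl : l ∈ I
  · by_cases hl0 : l = i₀
    · subst hl0
      by_cases hs : s = 0
      · subst hs
        rw [psi_i₀_zero]
        exact ((hin _).mono H.z0).add ((ge_X _).mono H.z1)
      · rw [psi_i₀_pos _ _ _ _ hs]
        exact (ge_X _).mono (H.z2 s hs)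
    · by_cases hs : s = 0
      · subst hs
        rw [psi_mem_zero _ _ _ _ hl hl0]
        exact ((hin _).mono (H.m0 l hl hl0)).add
          (((ge_X _).mul (ge_X _)).mono (H.m1 l hl hl0 0 0 0 rfl))
      · rw [psi_mem_pos _ _ _ _ hl hl0 _ hs]
        apply ge_sum
        intro x hx
        rw [Finset.HasAntidiagonal.mem_antidiagonal] at hx
        have h1 : x.1 < k + 1 := by
          have := s.2
          omega
        have h2 : x.2 < k + 1 := by
          have := s.2
          omega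
        have e1 : PowerSeries.coeff x.1 (gen (N := N) (k := k) l) = X (Sum.inr (l, ⟨x.1, h1⟩)) :=
          coeff_gen l ⟨x.1, h1⟩
        have e2 : PowerSeries.coeff x.2 (gen (N := N) (k := k) i₀) =
            X (Sum.inr (i₀, ⟨x.2, h2⟩)) := coeff_gen i₀ ⟨x.2, h2⟩
        rw [e1, e2]
        exact ((ge_X _).mul (ge_X _)).mono (H.m1 l hl hl0 s ⟨x.1, h1⟩ ⟨x.2, h2⟩ hx)
  · rw [psi_notMem _ _ h0 _ _ hl]
    exact (ge_X _).mono (H.n0 l hl s)

theorem Adm.geff (H : Adm I i₀ w g h) (j : Fin n → Fin N) (l : Fin n) (hl : l ∈ I) :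
    Ge w (h l) (psi (k := k) I i₀ j (ff l)) := by
  have hin : ∀ q, Ge w 0 (X (Sum.inl q) : Pol n N k) := by
    intro q
    have := ge_X (w := w) (Sum.inl q)
    rwa [H.inl] at this
  have key : ∃ Y : Pol n N k, Ge w (h l) Y ∧
      psi (k := k) I i₀ j (X (Sum.inr (l, 0))) = X (Sum.inl (l, j l)) + Y := by
    by_cases hl0 : l = i₀
    · subst hl0
      refine ⟨X (Sum.inr (l, 0)), ?_, psi_i₀_zero _ _ _⟩
      rw [H.h0]
      exact ge_X _
    · refine ⟨X (Sum.inr (l, 0)) * X (Sum.inr (i₀, 0)), ?_, psi_mem_zero _ _ _ _ hl hl0⟩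
      rw [H.h1 l hl hl0]
      exact (ge_X _).mul (ge_X _)
  obtain ⟨Y, hY, hpY⟩ := key
  unfold ff
  rw [map_prod, ← Finset.mul_prod_erase Finset.univ _ (Finset.mem_univ (j l))]
  have e1 : psi (k := k) I i₀ j (X (Sum.inr (l, 0)) - X (Sum.inl (l, j l))) = Y := by
    rw [map_sub, hpY, psi_inl]
    ring
  have e2 : Ge w (∑ x ∈ Finset.univ.erase (j l), (0 : ℤ)) (∏ x ∈ Finset.univ.erase (j l),
      psi (k := k) I i₀ j (X (Sum.inr (l, 0)) - X (Sum.inl (l, x)))) := by
    apply ge_prod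
    intro x _
    rw [map_sub, hpY, psi_inl]
    exact ((hin _).add (hY.mono (H.hp l hl))).sub (hin _)
  rw [e1]
  have e3 := hY.mul e2
  rwa [Finset.sum_const_zero, add_zero] at e3

theorem Adm.geblk (H : Adm I i₀ w g h) (h0 : i₀ ∈ I) (j : Fin n → Fin N) (m : ℕ)
    (b : Fin n × Fin (k + 1) → ℕ) :
    Ge w (∑ p, (b p : ℤ) * g p + ∑ l ∈ I, ((m - Aof b l : ℕ) : ℤ) * h l)
      (psi (k := k) I i₀ j (blk m I b)) := by
  unfold blk
  rw [map_mul, map_prod, map_prod]
  apply Ge.mul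
  · apply ge_prod
    intro p _
    rw [map_pow]
    exact (H.geX h0 j p).pow _
  · apply ge_prod
    intro l hl
    rw [map_pow]
    exact (H.geff j l hl).pow _

theorem Adm.bound (H : Adm I i₀ w g h) (h0 : i₀ ∈ I) (j : Fin n → Fin N) (m : ℕ)
    (b : Fin n × Fin (k + 1) → ℕ) (e : Sig n N k →₀ ℕ)
    (he : e ∈ (psi (k := k) I i₀ j (blk m I b)).support) :
    ∑ p, (b p : ℤ) * g p + ∑ l ∈ I, ((m - Aof b l : ℕ) : ℤ) * h l ≤
      ∑ p, (e (Sum.inr p) : ℤ) * w (Sum.inr p) := by
  have h1 := H.geblk h0 j m b e he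
  rw [Finsupp.sum_fintype _ _ (fun v => by simp), Fintype.sum_sum_type] at h1
  have h2 : ∑ q : Fin n × Fin N, ((e (Sum.inl q) : ℕ) : ℤ) * w (Sum.inl q) = 0 :=
    Finset.sum_eq_zero fun q _ => by rw [H.inl, mul_zero]
  rw [h2, zero_add] at h1
  exact h1

theorem sum_ind (b : Fin n × Fin (k + 1) → ℕ) (l : Fin n) :
    ∑ s : Fin (k + 1), (b (l, s) : ℤ) * (if s ≠ 0 then 1 else 0) = (Aof b l : ℤ) := by
  rw [Fin.sum_univ_succ, Aof]
  push_cast
  simp

theorem sum_all (b : Fin n × Fin (k + 1) → ℕ) (l : Fin n) :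
    ∑ s : Fin (k + 1), (b (l, s) : ℤ) = (b (l, 0) : ℤ) + (Aof b l : ℤ) := by
  rw [Fin.sum_univ_succ, Aof]
  push_cast
  rfl

theorem exp : ExpStmt := by
  classical
  intro n N k m δ B I i₀ j h0 hc hδ hB b hb e he hlt
  set E : Fin n × Fin (k + 1) → ℕ := fun p => e (Sum.inr p) with hE
  unfold US at hb
  obtain ⟨hb1, hb2, hb3⟩ := Finset.mem_filter.mp hb
  rw [Fintype.mem_piFinset] at hb1
  -- the coordinates outside `I`
  have hout : ∀ l ∉ I, ∀ s, E (l, s) = b (l, s) := by
    intro l hl s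
    have hne : ∀ i ∈ I, ∀ t : Fin (k + 1), (i, t) ≠ (l, s) := by
      intro i hi t h
      exact hl ((Prod.mk.inj h).1 ▸ hi)
    have H : ∀ ε : ℤ, Adm (N := N) I i₀ (Sum.elim (fun _ => 0) fun p => if p = (l, s) then ε else 0)
        (fun p => if p = (l, s) then ε else 0) (fun _ => 0) := by
      intro ε
      refine ⟨fun _ => rfl, ?_, le_refl _, fun _ _ => le_refl _, ?_, ?_, fun _ _ _ => le_refl _,
        ?_, ?_, fun _ _ => le_refl _⟩
      · show (if (i₀, (0 : Fin (k + 1))) = (l, s) then ε else 0) ≤ 0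
        rw [if_neg (hne i₀ h0 0)]
      · intro i hi _
        show (if (i, (0 : Fin (k + 1))) = (l, s) then ε else 0) ≤ 0
        rw [if_neg (hne i hi 0)]
      · intro i hi _ t p q _
        show (if (i, t) = (l, s) then ε else 0) ≤ (if (i, p) = (l, s) then ε else 0) +
          (if (i₀, q) = (l, s) then ε else 0)
        rw [if_neg (hne i hi t), if_neg (hne i hi p), if_neg (hne i₀ h0 q), add_zero]
      · show (0 : ℤ) = if (i₀, (0 : Fin (k + 1))) = (l, s) then ε else 0
        rw [if_neg (hne i₀ h0 0)]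
      · intro i hi _
        show (0 : ℤ) = (if (i, (0 : Fin (k + 1))) = (l, s) then ε else 0) +
          (if (i₀, (0 : Fin (k + 1))) = (l, s) then ε else 0)
        rw [if_neg (hne i hi 0), if_neg (hne i₀ h0 0), add_zero]
    have hsum : ∀ (ε : ℤ) (c : Fin n × Fin (k + 1) → ℕ),
        ∑ p, (c p : ℤ) * (if p = (l, s) then ε else 0) = (c (l, s) : ℤ) * ε := by
      intro ε c
      rw [Finset.sum_eq_single (l, s)]
      · rw [if_pos rfl]
      · intro p _ hp
        rw [if_neg hp, mul_zero]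
      · intro h
        exact absurd (Finset.mem_univ _) h
    have b1 := (H 1).bound h0 j m b e he
    have b2 := (H (-1)).bound h0 j m b e he
    simp only [mul_zero, Finset.sum_const_zero, add_zero] at b1 b2
    rw [hsum] at b1 b2
    have c1 : ∑ p, (e (Sum.inr p) : ℤ) * (if p = (l, s) then (1 : ℤ) else 0) =
      (E (l, s) : ℤ) * 1 := hsum 1 E
    have c2 : ∑ p, (e (Sum.inr p) : ℤ) * (if p = (l, s) then (-1 : ℤ) else 0) =
      (E (l, s) : ℤ) * (-1) := hsum (-1) E
    have b1' := b1.trans (le_of_eq c1)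
    have b2' := b2.trans (le_of_eq c2)
    omega
  have hAout : ∀ l ∉ I, Aof E l = Aof b l := by
    intro l hl
    unfold Aof
    exact Finset.sum_congr rfl fun s _ => hout l hl _
  -- the weight
  have hwt : wtof E = m := by
    have hsum : ∀ (ε : ℤ) (c : Fin n × Fin (k + 1) → ℕ),
        ∑ p, (c p : ℤ) * (ε * ((p.2 : ℕ) : ℤ)) = ε * (wtof c : ℤ) := by
      intro ε c
      rw [Fintype.sum_prod_type, wtof]
      push_cast
      rw [Finset.mul_sum]
      refine Finset.sum_congr rfl fun l _ => ?_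
      rw [Fin.sum_univ_succ, Finset.mul_sum]
      simp only [Fin.val_zero, Nat.cast_zero, mul_zero, zero_add, Fin.val_succ]
      refine Finset.sum_congr rfl fun s _ => ?_
      push_cast
      ring
    have H : ∀ ε : ℤ, Adm (N := N) I i₀ (Sum.elim (fun _ => 0) fun p => ε * ((p.2 : ℕ) : ℤ))
        (fun p : Fin n × Fin (k + 1) => ε * ((p.2 : ℕ) : ℤ)) (fun _ => 0) := by
      intro ε
      refine ⟨fun _ => rfl, ?_, le_refl _, fun _ _ => le_refl _, ?_, ?_, fun _ _ _ => le_refl _,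
        ?_, ?_, fun _ _ => le_refl _⟩
      · simp
      · intro i hi _
        simp
      · intro i hi _ t p q hpq
        show ε * ((t : ℕ) : ℤ) ≤ ε * ((p : ℕ) : ℤ) + ε * ((q : ℕ) : ℤ)
        rw [← hpq]
        push_cast
        exact le_of_eq (by ring)
      · simp
      · intro i hi _
        simp
    have b1 := (H 1).bound h0 j m b e he
    have b2 := (H (-1)).bound h0 j m b e he
    simp only [mul_zero, Finset.sum_const_zero, add_zero] at b1 b2
    rw [hsum] at b1 b2
    have c1 : ∑ p : Fin n × Fin (k + 1), (e (Sum.inr p) : ℤ) * (1 * ((p.2 : ℕ) : ℤ)) =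
      1 * (wtof E : ℤ) := hsum 1 E
    have c2 : ∑ p : Fin n × Fin (k + 1), (e (Sum.inr p) : ℤ) * ((-1) * ((p.2 : ℕ) : ℤ)) =
      (-1) * (wtof E : ℤ) := hsum (-1) E
    have b1' := b1.trans (le_of_eq c1)
    have b2' := b2.trans (le_of_eq c2)
    omega
  -- the sums over one coordinate
  have hone : ∀ (i : Fin n) (c : Fin n × Fin (k + 1) → ℕ),
      ∑ p, (c p : ℤ) * (if p.1 = i then (1 : ℤ) else 0) = (c (i, 0) : ℤ) + (Aof c i : ℤ) := by
    intro i c
    rw [Fintype.sum_prod_type, Finset.sum_eq_single i]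
    · rw [← sum_all c i]
      exact Finset.sum_congr rfl fun s _ => by rw [if_pos rfl, mul_one]
    · intro l _ hl
      exact Finset.sum_eq_zero fun s _ => by rw [if_neg hl, mul_zero]
    · intro h
      exact absurd (Finset.mem_univ _) h
  have hone' : ∀ (i : Fin n) (c : Fin n × Fin (k + 1) → ℕ),
      ∑ p, (c p : ℤ) * (if p.1 = i ∧ p.2 ≠ 0 then (1 : ℤ) else 0) = (Aof c i : ℤ) := by
    intro i c
    rw [Fintype.sum_prod_type, Finset.sum_eq_single i]
    · rw [← sum_ind c i]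
      refine Finset.sum_congr rfl fun s _ => ?_
      by_cases hs : s ≠ 0
      · rw [if_pos ⟨rfl, hs⟩, if_pos hs]
      · rw [if_neg (fun h => hs h.2), if_neg hs]
    · intro l _ hl
      exact Finset.sum_eq_zero fun s _ => by rw [if_neg (fun h => hl h.1), mul_zero]
    · intro h
      exact absurd (Finset.mem_univ _) h
  -- the lower bound for `TU`
  have hTU : I.card * m ≤ E (i₀, 0) + Aof E i₀ := by
    have H : Adm (N := N) I i₀ (Sum.elim (fun _ => 0) fun p => if p.1 = i₀ then (1 : ℤ) else 0)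
        (fun p : Fin n × Fin (k + 1) => if p.1 ∈ I ∧ p.2 ≠ 0 then (1 : ℤ) else 0)
        (fun _ => 1) := by
      refine ⟨fun _ => rfl, ?_, ?_, ?_, ?_, ?_, ?_, ?_, ?_, fun _ _ => zero_le_one⟩
      · show (if i₀ ∈ I ∧ (0 : Fin (k + 1)) ≠ 0 then (1 : ℤ) else 0) ≤ 0
        rw [if_neg (fun h => h.2 rfl)]
      · show (if i₀ ∈ I ∧ (0 : Fin (k + 1)) ≠ 0 then (1 : ℤ) else 0) ≤
          (if i₀ = i₀ then (1 : ℤ) else 0)
        rw [if_neg (fun h => h.2 rfl), if_pos rfl]
        exact zero_le_one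
      · intro s hs
        show (if i₀ ∈ I ∧ s ≠ 0 then (1 : ℤ) else 0) ≤ (if i₀ = i₀ then (1 : ℤ) else 0)
        rw [if_pos rfl]
        split_ifs
        · exact le_refl _
        · exact zero_le_one
      · intro i hi _
        show (if i ∈ I ∧ (0 : Fin (k + 1)) ≠ 0 then (1 : ℤ) else 0) ≤ 0
        rw [if_neg (fun h => h.2 rfl)]
      · intro i hi hi0 s p q _
        show (if i ∈ I ∧ s ≠ 0 then (1 : ℤ) else 0) ≤ (if i = i₀ then (1 : ℤ) else 0) +
          (if i₀ = i₀ then (1 : ℤ) else 0)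
        rw [if_neg hi0, if_pos rfl, zero_add]
        split_ifs
        · exact le_refl _
        · exact zero_le_one
      · intro l hl s
        show (if l ∈ I ∧ s ≠ 0 then (1 : ℤ) else 0) ≤ (if l = i₀ then (1 : ℤ) else 0)
        rw [if_neg (fun h => hl h.1)]
        split_ifs
        · exact zero_le_one
        · exact le_refl _
      · show (1 : ℤ) = (if i₀ = i₀ then (1 : ℤ) else 0)
        rw [if_pos rfl]
      · intro i hi hi0
        show (1 : ℤ) = (if i = i₀ then (1 : ℤ) else 0) + (if i₀ = i₀ then (1 : ℤ) else 0)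
        rw [if_neg hi0, if_pos rfl, zero_add]
    have b1 := H.bound h0 j m b e he
    have c1 : ∑ p, (e (Sum.inr p) : ℤ) * (if p.1 = i₀ then (1 : ℤ) else 0) =
      (E (i₀, 0) : ℤ) + (Aof E i₀ : ℤ) := hone i₀ E
    have b1' := b1.trans (le_of_eq c1)
    have c2 : ∑ p : Fin n × Fin (k + 1), (b p : ℤ) * (if p.1 ∈ I ∧ p.2 ≠ 0 then (1 : ℤ) else 0) =
        ∑ l ∈ I, (Aof b l : ℤ) := by
      rw [Fintype.sum_prod_type, ← Finset.sum_filter_add_sum_filter_not Finset.univ (fun l => l ∈ I)]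
      have f1 : (Finset.univ.filter fun l => l ∈ I) = I := by
        ext l
        simp
      have f2 : ∑ l ∈ Finset.univ.filter (fun l => ¬ l ∈ I), ∑ s : Fin (k + 1),
          (b (l, s) : ℤ) * (if l ∈ I ∧ s ≠ 0 then (1 : ℤ) else 0) = 0 := by
        refine Finset.sum_eq_zero fun l hl => Finset.sum_eq_zero fun s _ => ?_
        rw [if_neg (fun h => (Finset.mem_filter.mp hl).2 h.1), mul_zero]
      rw [f1]
      refine (congrArg₂ (· + ·) rfl f2).trans ?_
      rw [add_zero]
      refine Finset.sum_congr rfl fun l hl => ?_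
      rw [← sum_ind b l]
      refine Finset.sum_congr rfl fun s _ => ?_
      by_cases hs : s ≠ 0
      · rw [if_pos ⟨hl, hs⟩, if_pos hs]
      · rw [if_neg (fun h => hs h.2), if_neg hs]
    rw [c2, ← Finset.sum_add_distrib] at b1'
    have c3 : (I.card * m : ℤ) ≤ ∑ l ∈ I, ((Aof b l : ℤ) + ((m - Aof b l : ℕ) : ℤ) * 1) := by
      rw [← nsmul_eq_mul, ← Finset.sum_const]
      refine Finset.sum_le_sum fun l _ => ?_
      omega
    have := c3.trans b1'
    exact_mod_cast this
  -- the lower bound for `TE i`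
  have hTE : ∀ i ∈ I, i ≠ i₀ → m ≤ E (i, 0) + Aof E i := by
    intro i hi hi0
    have H : Adm (N := N) I i₀ (Sum.elim (fun _ => 0) fun p => if p.1 = i then (1 : ℤ) else 0)
        (fun p : Fin n × Fin (k + 1) => if p.1 = i ∧ p.2 ≠ 0 then (1 : ℤ) else 0)
        (fun l => if l = i then (1 : ℤ) else 0) := by
      refine ⟨fun _ => rfl, ?_, ?_, ?_, ?_, ?_, ?_, ?_, ?_, ?_⟩
      · show (if i₀ = i ∧ (0 : Fin (k + 1)) ≠ 0 then (1 : ℤ) else 0) ≤ 0
        rw [if_neg (fun h => h.2 rfl)]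
      · show (if i₀ = i ∧ (0 : Fin (k + 1)) ≠ 0 then (1 : ℤ) else 0) ≤
          (if i₀ = i then (1 : ℤ) else 0)
        rw [if_neg (fun h => h.2 rfl), if_neg (Ne.symm hi0)]
      · intro s hs
        show (if i₀ = i ∧ s ≠ 0 then (1 : ℤ) else 0) ≤ (if i₀ = i then (1 : ℤ) else 0)
        rw [if_neg (fun h => hi0 h.1.symm), if_neg (Ne.symm hi0)]
      · intro l hl _
        show (if l = i ∧ (0 : Fin (k + 1)) ≠ 0 then (1 : ℤ) else 0) ≤ 0
        rw [if_neg (fun h => h.2 rfl)]
      · intro l hl hl0 s p q _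
        show (if l = i ∧ s ≠ 0 then (1 : ℤ) else 0) ≤ (if l = i then (1 : ℤ) else 0) +
          (if i₀ = i then (1 : ℤ) else 0)
        rw [if_neg (Ne.symm hi0), add_zero]
        by_cases hli : l = i
        · rw [if_pos hli]
          split_ifs
          · exact le_refl _
          · exact zero_le_one
        · rw [if_neg hli, if_neg (fun h => hli h.1)]
      · intro l hl s
        show (if l = i ∧ s ≠ 0 then (1 : ℤ) else 0) ≤ (if l = i then (1 : ℤ) else 0)
        have hli : l ≠ i := fun h => hl (h ▸ hi)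
        rw [if_neg hli, if_neg (fun h => hli h.1)]
      · show (if i₀ = i then (1 : ℤ) else 0) = (if i₀ = i then (1 : ℤ) else 0)
        rfl
      · intro l hl hl0
        show (if l = i then (1 : ℤ) else 0) = (if l = i then (1 : ℤ) else 0) +
          (if i₀ = i then (1 : ℤ) else 0)
        rw [if_neg (Ne.symm hi0 : ¬ i₀ = i), add_zero]
      · intro l _
        show (0 : ℤ) ≤ if l = i then (1 : ℤ) else 0
        split_ifs
        · exact zero_le_one
        · exact le_refl _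
    have b1 := H.bound h0 j m b e he
    have c1 : ∑ p, (e (Sum.inr p) : ℤ) * (if p.1 = i then (1 : ℤ) else 0) =
      (E (i, 0) : ℤ) + (Aof E i : ℤ) := hone i E
    have b1' := b1.trans (le_of_eq c1)
    rw [hone' i b] at b1'
    have c3 : ∑ l ∈ I, ((m - Aof b l : ℕ) : ℤ) * (if l = i then (1 : ℤ) else 0) =
        ((m - Aof b i : ℕ) : ℤ) := by
      rw [Finset.sum_eq_single i]
      · rw [if_pos rfl, mul_one]
      · intro l _ hl
        rw [if_neg hl, mul_zero]
      · intro h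
        exact absurd hi h
    rw [c3] at b1'
    omega
  -- the difference
  have hDF : m + ∑ i ∈ I.erase i₀, (E (i, 0) + Aof E i) ≤ E (i₀, 0) + Aof E i₀ := by
    have H : Adm (N := N) I i₀ (Sum.elim (fun _ => 0)
        fun p => if p.1 = i₀ then (1 : ℤ) else if p.1 ∈ I then -1 else 0)
        (fun p : Fin n × Fin (k + 1) => if p.1 = i₀ ∧ p.2 ≠ 0 then (1 : ℤ) else 0)
        (fun l => if l = i₀ then (1 : ℤ) else 0) := by
      refine ⟨fun _ => rfl, ?_, ?_, ?_, ?_, ?_, ?_, ?_, ?_, ?_⟩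
      · show (if i₀ = i₀ ∧ (0 : Fin (k + 1)) ≠ 0 then (1 : ℤ) else 0) ≤ 0
        rw [if_neg (fun h => h.2 rfl)]
      · show (if i₀ = i₀ ∧ (0 : Fin (k + 1)) ≠ 0 then (1 : ℤ) else 0) ≤
          (if i₀ = i₀ then (1 : ℤ) else if i₀ ∈ I then -1 else 0)
        rw [if_neg (fun h => h.2 rfl), if_pos rfl]
        exact zero_le_one
      · intro s hs
        show (if i₀ = i₀ ∧ s ≠ 0 then (1 : ℤ) else 0) ≤
          (if i₀ = i₀ then (1 : ℤ) else if i₀ ∈ I then -1 else 0)
        rw [if_pos ⟨rfl, hs⟩, if_pos rfl]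
      · intro l hl _
        show (if l = i₀ ∧ (0 : Fin (k + 1)) ≠ 0 then (1 : ℤ) else 0) ≤ 0
        rw [if_neg (fun h => h.2 rfl)]
      · intro l hl hl0 s p q _
        show (if l = i₀ ∧ s ≠ 0 then (1 : ℤ) else 0) ≤
          (if l = i₀ then (1 : ℤ) else if l ∈ I then -1 else 0) +
          (if i₀ = i₀ then (1 : ℤ) else if i₀ ∈ I then -1 else 0)
        rw [if_neg (fun h => hl0 h.1), if_neg hl0, if_pos hl, if_pos rfl]
        norm_num
      · intro l hl s
        show (if l = i₀ ∧ s ≠ 0 then (1 : ℤ) else 0) ≤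
          (if l = i₀ then (1 : ℤ) else if l ∈ I then -1 else 0)
        have hli : l ≠ i₀ := fun h => hl (h ▸ h0)
        rw [if_neg (fun h => hli h.1), if_neg hli, if_neg hl]
      · show (if i₀ = i₀ then (1 : ℤ) else 0) =
          (if i₀ = i₀ then (1 : ℤ) else if i₀ ∈ I then -1 else 0)
        rw [if_pos rfl, if_pos rfl]
      · intro l hl hl0
        show (if l = i₀ then (1 : ℤ) else 0) =
          (if l = i₀ then (1 : ℤ) else if l ∈ I then -1 else 0) +
          (if i₀ = i₀ then (1 : ℤ) else if i₀ ∈ I then -1 else 0)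
        rw [if_neg hl0, if_neg hl0, if_pos hl, if_pos rfl]
        norm_num
      · intro l _
        show (0 : ℤ) ≤ if l = i₀ then (1 : ℤ) else 0
        split_ifs
        · exact zero_le_one
        · exact le_refl _
    have b1 := H.bound h0 j m b e he
    have c1 : ∑ p, (e (Sum.inr p) : ℤ) * (if p.1 = i₀ then (1 : ℤ) else if p.1 ∈ I then -1 else 0)
        = (E (i₀, 0) : ℤ) + (Aof E i₀ : ℤ) -
          ∑ i ∈ I.erase i₀, ((E (i, 0) : ℤ) + (Aof E i : ℤ)) := by
      have d1 : ∀ p : Fin n × Fin (k + 1),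
          (if p.1 = i₀ then (1 : ℤ) else if p.1 ∈ I then -1 else 0) =
          (if p.1 = i₀ then (1 : ℤ) else 0) -
            ∑ i ∈ I.erase i₀, (if p.1 = i then (1 : ℤ) else 0) := by
        intro p
        by_cases hp : p.1 = i₀
        · rw [if_pos hp, if_pos hp, Finset.sum_eq_zero, sub_zero]
          intro i hi
          rw [if_neg]
          intro h
          exact Finset.ne_of_mem_erase hi (h.symm.trans hp)
        · rw [if_neg hp, if_neg hp]
          by_cases hpI : p.1 ∈ I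
          · rw [if_pos hpI, Finset.sum_eq_single p.1]
            · rw [if_pos rfl]
              norm_num
            · intro i _ hi
              rw [if_neg (Ne.symm hi)]
            · intro h
              exact absurd (Finset.mem_erase.mpr ⟨hp, hpI⟩) h
          · rw [if_neg hpI, Finset.sum_eq_zero, sub_zero]
            intro i hi
            rw [if_neg]
            intro h
            exact hpI (h ▸ Finset.mem_of_mem_erase hi)
      have d2 : ∀ p : Fin n × Fin (k + 1), (e (Sum.inr p) : ℤ) *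
          (if p.1 = i₀ then (1 : ℤ) else if p.1 ∈ I then -1 else 0) =
          (E p : ℤ) * (if p.1 = i₀ then (1 : ℤ) else 0) -
            ∑ i ∈ I.erase i₀, (E p : ℤ) * (if p.1 = i then (1 : ℤ) else 0) := by
        intro p
        rw [d1 p, mul_sub, Finset.mul_sum]
      rw [Finset.sum_congr rfl fun p _ => d2 p, Finset.sum_sub_distrib, Finset.sum_comm, hone i₀ E]
      congr 1
      exact Finset.sum_congr rfl fun i _ => hone i E
    have b1' := b1.trans (le_of_eq c1)
    rw [hone' i₀ b] at b1'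
    have c3 : ∑ l ∈ I, ((m - Aof b l : ℕ) : ℤ) * (if l = i₀ then (1 : ℤ) else 0) =
        ((m - Aof b i₀ : ℕ) : ℤ) := by
      rw [Finset.sum_eq_single i₀]
      · rw [if_pos rfl, mul_one]
      · intro l _ hl
        rw [if_neg hl, mul_zero]
      · intro h
        exact absurd h0 h
    rw [c3] at b1'
    have c4 : (m : ℤ) ≤ (Aof b i₀ : ℤ) + ((m - Aof b i₀ : ℕ) : ℤ) := by omega
    have c5 : (m : ℤ) + ∑ i ∈ I.erase i₀, ((E (i, 0) : ℤ) + (Aof E i : ℤ)) ≤
        (E (i₀, 0) : ℤ) + (Aof E i₀ : ℤ) := by linarith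
    exact_mod_cast c5
  refine ⟨?_, hAout⟩
  -- the box
  have hAle : ∀ l, Aof E l ≤ m := by
    intro l
    rw [← hwt]
    unfold Aof wtof
    refine le_trans ?_ (Finset.single_le_sum (f := fun l => ∑ s : Fin k, ((s : ℕ) + 1) *
      E (l, s.succ)) (fun _ _ => Nat.zero_le _) (Finset.mem_univ l))
    exact Finset.sum_le_sum fun s _ => Nat.le_mul_of_pos_left _ (Nat.succ_pos _)
  have hcn : I.card ≤ n := by
    simpa using Finset.card_le_univ I
  have hTUle : E (i₀, 0) + Aof E i₀ ≤ (n + 1) * m := by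
    have h1 : E (i₀, 0) ≤ n * m := by
      have h2 : E (i₀, 0) < I.card * (m - δ) := hlt
      have h3 : I.card * (m - δ) ≤ n * m := Nat.mul_le_mul hcn (Nat.sub_le _ _)
      omega
    have h4 := hAle i₀
    nlinarith
  have hmem : ∀ (l : Fin n) (s : Fin (k + 1)), E (l, s) ≤ E (l, 0) + Aof E l := by
    intro l s
    refine Fin.cases ?_ (fun s => ?_) s
    · exact Nat.le_add_right _ _
    · have : E (l, s.succ) ≤ Aof E l :=
        Finset.single_le_sum (f := fun s : Fin k => E (l, s.succ)) (fun _ _ => Nat.zero_le _)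
          (Finset.mem_univ s)
      omega
  have hbox : ∀ p, E p ≤ (N + n + 2) * m := by
    intro p
    obtain ⟨l, s⟩ := p
    by_cases hl : l ∈ I
    · have h1 := hmem l s
      have h2 : E (l, 0) + Aof E l ≤ (n + 1) * m := by
        by_cases hl0 : l = i₀
        · rw [hl0]
          exact hTUle
        · have h3 : E (l, 0) + Aof E l ≤ ∑ i ∈ I.erase i₀, (E (i, 0) + Aof E i) :=
            Finset.single_le_sum (f := fun i => E (i, 0) + Aof E i) (fun _ _ => Nat.zero_le _)
              (Finset.mem_erase.mpr ⟨hl0, hl⟩)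
          omega
      have h3 : (n + 1) * m ≤ (N + n + 2) * m := Nat.mul_le_mul_right _ (by omega)
      omega
    · rw [hout l hl s]
      have := Finset.mem_range.mp (hb1 (l, s))
      omega
  unfold CS
  refine Finset.mem_filter.mpr ⟨?_, hwt, ?_, hlt, hTU, hTE, hDF⟩
  · rw [Fintype.mem_piFinset]
    intro p
    rw [Finset.mem_range]
    exact Nat.lt_succ_of_le (hbox p)
  · intro l hl
    have h1 := hb3 l
    have h2 := hAout l hl
    have h3 := hout l hl 0
    show E (l, 0) + B ≤ N * (Aof E l - δ)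
    rw [h2, h3]
    exact h1

end

end Pool.Agent.PN.H96
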