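import Pool.Agent.Helper50_PN.Stmts

/-!
# Squad PN, module NUC: the conditions against the generating function
-/

set_option autoImplicit false

namespace Pool.Agent.PN.H96

open Pool.Agent.PN

theorem coeff_prod_ge {ι : Type} [Fintype ι] [DecidableEq ι] (f : ι → PowerSeries ℕ) (σ : ℕ)
    {A : Type} (S : Finset A) (p : A → ι → ℕ) (g : A → ℕ) (hinj : Set.InjOn p S)
    (hsum : ∀ a ∈ S, ∑ i, p a i = σ)
    (hg : ∀ a ∈ S, g a ≤ ∏ i, PowerSeries.coeff (p a i) (f i)) :
    ∑ a ∈ S, g a ≤ PowerSeries.coeff σ (∏ i, f i) := by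
  classical
  rw [PowerSeries.coeff_prod]
  let E : A → (ι →₀ ℕ) := fun a => Finsupp.equivFunOnFinite.symm (p a)
  have hE : ∀ a i, E a i = p a i := fun a i => rfl
  have hEi : Set.InjOn E S := by
    intro a ha b hb hab
    apply hinj ha hb
    funext i
    rw [← hE, ← hE, hab]
  calc ∑ a ∈ S, g a ≤ ∑ a ∈ S, ∏ i, PowerSeries.coeff (E a i) (f i) := Finset.sum_le_sum hg
    _ = ∑ x ∈ S.image E, ∏ i, PowerSeries.coeff (x i) (f i) := by
      rw [Finset.sum_image hEi]
    _ ≤ _ := by
      apply Finset.sum_le_sum_of_subset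
      intro x hx
      obtain ⟨a, ha, rfl⟩ := Finset.mem_image.mp hx
      rw [Finset.mem_finsuppAntidiag]
      exact ⟨hsum a ha, Finset.subset_univ _⟩

theorem coeff_geo_mul (j e : ℕ) : PowerSeries.coeff (j * e) (geo j) = 1 := by
  rw [geo, PowerSeries.coeff_mk, if_pos (Dvd.intro e rfl)]

section

variable {n K : ℕ}

/-- the series of the binomial coefficients -/
def BB (c : ℕ) : PowerSeries ℕ := PowerSeries.mk fun T => (T + c - 1).choose c

open Classical in
/-- the factors -/
noncomputable def fs (I : Finset (Fin n)) (i₀ : Fin n) (q : Fin n × Fin (K + 1)) : PowerSeries ℕ :=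
  if q.1 ∈ I then
    (if q.1 = i₀ then (if q.2 = 0 then BB I.card else geo (q.2 : ℕ)) else geo ((q.2 : ℕ) + 1))
  else (if q.2 = 0 then VV else geo (q.2 : ℕ))

open Classical in
/-- the exponents -/
noncomputable def ps (δ : ℕ) (I : Finset (Fin n)) (i₀ : Fin n) (α : Fin n × Fin (K + 1) → ℕ)
    (q : Fin n × Fin (K + 1)) : ℕ :=
  if q.1 ∈ I then
    (if q.1 = i₀ then (if q.2 = 0 then jA α i₀ - I.card * δ else (q.2 : ℕ) * α q)
      else ((q.2 : ℕ) + 1) * α q)
  else (if q.2 = 0 then jA α q.1 - δ else (q.2 : ℕ) * α q)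

theorem prod_fs (I : Finset (Fin n)) (i₀ : Fin n) (h0 : i₀ ∈ I) :
    ∏ q, fs (K := K) I i₀ q = CC n (K + 1) I.card := by
  classical
  rw [Fintype.prod_prod_type]
  have h1 : ∀ l, ∏ s, fs (K := K) I i₀ (l, s) =
      if l ∈ I then (if l = i₀ then BB I.card * GG (K + 1) else GG (K + 1) * geo (K + 1))
      else VV * GG (K + 1) := by
    intro l
    have hG : GG (K + 1) = ∏ s : Fin K, geo ((s : ℕ) + 1) := rfl
    by_cases hl : l ∈ I
    · rw [if_pos hl]
      by_cases hl0 : l = i₀
      · rw [if_pos hl0, Fin.prod_univ_succ]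
        have e0 : fs (K := K) I i₀ (l, 0) = BB I.card := by
          unfold fs
          rw [if_pos hl, if_pos hl0, if_pos rfl]
        have e1 : ∀ s : Fin K, fs (K := K) I i₀ (l, s.succ) = geo ((s : ℕ) + 1) := by
          intro s
          unfold fs
          rw [if_pos hl, if_pos hl0, if_neg (Fin.succ_ne_zero s), Fin.val_succ]
        rw [e0, hG]
        congr 1
        exact Finset.prod_congr rfl fun s _ => e1 s
      · rw [if_neg hl0, Fin.prod_univ_castSucc]
        have e1 : ∀ s : Fin (K + 1), fs (K := K) I i₀ (l, s) = geo ((s : ℕ) + 1) := by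
          intro s
          unfold fs
          rw [if_pos hl, if_neg hl0]
        rw [e1, hG, Fin.val_last]
        congr 1
        exact Finset.prod_congr rfl fun s _ => by rw [e1, Fin.val_castSucc]
    · rw [if_neg hl, Fin.prod_univ_succ]
      have e0 : fs (K := K) I i₀ (l, 0) = VV := by
        unfold fs
        rw [if_neg hl, if_pos rfl]
      have e1 : ∀ s : Fin K, fs (K := K) I i₀ (l, s.succ) = geo ((s : ℕ) + 1) := by
        intro s
        unfold fs
        rw [if_neg hl, if_neg (Fin.succ_ne_zero s), Fin.val_succ]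
      rw [e0, hG]
      congr 1
      exact Finset.prod_congr rfl fun s _ => e1 s
  rw [Finset.prod_congr rfl fun l _ => h1 l, Finset.prod_ite]
  have h2 : (Finset.univ.filter fun l => l ∈ I) = I := by
    ext l
    simp
  have h3 : (Finset.univ.filter fun l => ¬ l ∈ I).card = n - I.card := by
    have h4 := Finset.card_filter_add_card_filter_not (s := (Finset.univ : Finset (Fin n))) (fun l => l ∈ I)
    rw [h2, Finset.card_univ, Fintype.card_fin] at h4
    omega
  rw [Finset.prod_const, h3, h2, ← Finset.mul_prod_erase I _ h0, if_pos rfl]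
  have h5 : ∏ l ∈ I.erase i₀, (if l = i₀ then BB I.card * GG (K + 1)
      else GG (K + 1) * geo (K + 1)) = (GG (K + 1) * geo (K + 1)) ^ (I.card - 1) := by
    rw [← Finset.card_erase_of_mem h0, ← Finset.prod_const]
    exact Finset.prod_congr rfl fun l hl => if_neg (Finset.ne_of_mem_erase hl)
  rw [h5]
  rfl

/-- the reduced weight of a coordinate -/
def rW (α : Fin n × Fin (K + 1) → ℕ) (l : Fin n) : ℕ := ∑ s : Fin K, ((s : ℕ) + 1) * α (l, s.succ)

theorem jA_succ (α : Fin n × Fin (K + 1) → ℕ) (l : Fin n) :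
    jA α l = α (l, 0) + ∑ s : Fin K, α (l, s.succ) := by
  rw [jA, Fin.sum_univ_succ]

theorem sum_wt (α : Fin n × Fin (K + 1) → ℕ) (l : Fin n) :
    ∑ s : Fin (K + 1), ((s : ℕ) + 1) * α (l, s) = jA α l + rW α l := by
  rw [Fin.sum_univ_succ, jA_succ, rW, add_assoc, ← Finset.sum_add_distrib]
  simp only [Fin.val_zero, zero_add, one_mul, Fin.val_succ]
  congr 1
  exact Finset.sum_congr rfl fun s _ => by ring

theorem sum_ps (δ : ℕ) (I : Finset (Fin n)) (i₀ : Fin n) (α : Fin n × Fin (K + 1) → ℕ)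
    (h1 : I.card * δ ≤ jA α i₀) (h2 : ∀ l ∉ I, δ ≤ jA α l) (l : Fin n) :
    ∑ s, ps δ I i₀ α (l, s) + (if l ∈ I then (if l = i₀ then I.card * δ else 0) else δ) =
      ∑ s : Fin (K + 1), ((s : ℕ) + 1) * α (l, s) := by
  classical
  by_cases hl : l ∈ I
  · rw [if_pos hl]
    by_cases hl0 : l = i₀
    · subst hl0
      rw [if_pos rfl, sum_wt, Fin.sum_univ_succ]
      have e0 : ps δ I l α (l, 0) = jA α l - I.card * δ := by
        unfold ps
        rw [if_pos hl, if_pos rfl, if_pos rfl]
      have e1 : ∀ s : Fin K, ps δ I l α (l, s.succ) = ((s : ℕ) + 1) * α (l, s.succ) := by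
        intro s
        unfold ps
        rw [if_pos hl, if_pos rfl, if_neg (Fin.succ_ne_zero s), Fin.val_succ]
      rw [e0, Finset.sum_congr rfl fun s _ => e1 s]
      unfold rW
      omega
    · rw [if_neg hl0, add_zero]
      refine Finset.sum_congr rfl fun s _ => ?_
      unfold ps
      rw [if_pos hl, if_neg hl0]
  · rw [if_neg hl, sum_wt, Fin.sum_univ_succ]
    have e0 : ps δ I i₀ α (l, 0) = jA α l - δ := by
      unfold ps
      rw [if_neg hl, if_pos rfl]
    have e1 : ∀ s : Fin K, ps δ I i₀ α (l, s.succ) = ((s : ℕ) + 1) * α (l, s.succ) := by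
      intro s
      unfold ps
      rw [if_neg hl, if_neg (Fin.succ_ne_zero s), Fin.val_succ]
    rw [e0, Finset.sum_congr rfl fun s _ => e1 s]
    have := h2 l hl
    unfold rW
    omega

theorem ps_inj (δ : ℕ) (I : Finset (Fin n)) (i₀ : Fin n) (h0 : i₀ ∈ I)
    (α β : Fin n × Fin (K + 1) → ℕ)
    (h1 : I.card * δ ≤ jA α i₀) (h2 : ∀ l ∉ I, δ ≤ jA α l)
    (h1' : I.card * δ ≤ jA β i₀) (h2' : ∀ l ∉ I, δ ≤ jA β l)
    (h : ps δ I i₀ α = ps δ I i₀ β) : α = β := by
  classical
  have key : ∀ l, ∀ s : Fin K, l = i₀ ∨ l ∉ I → α (l, s.succ) = β (l, s.succ) := by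
    intro l s hl
    have e := congrFun h (l, s.succ)
    have e1 : ∀ γ : Fin n × Fin (K + 1) → ℕ, ps δ I i₀ γ (l, s.succ) =
        ((s : ℕ) + 1) * γ (l, s.succ) := by
      intro γ
      unfold ps
      rcases hl with hl | hl
      · subst hl
        rw [if_pos h0, if_pos rfl, if_neg (Fin.succ_ne_zero s), Fin.val_succ]
      · rw [if_neg hl, if_neg (Fin.succ_ne_zero s), Fin.val_succ]
    rw [e1, e1] at e
    exact Nat.eq_of_mul_eq_mul_left (Nat.succ_pos _) e
  funext q
  obtain ⟨l, s⟩ := q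
  by_cases hl : l ∈ I
  · by_cases hl0 : l = i₀
    · subst hl0
      refine Fin.cases ?_ (fun s => key l s (Or.inl rfl)) s
      have e := congrFun h (l, 0)
      have e1 : ∀ γ : Fin n × Fin (K + 1) → ℕ, ps δ I l γ (l, 0) = jA γ l - I.card * δ := by
        intro γ
        unfold ps
        rw [if_pos h0, if_pos rfl, if_pos rfl]
      rw [e1, e1] at e
      have e2 : jA α l = jA β l := by omega
      rw [jA_succ, jA_succ, Finset.sum_congr rfl fun s _ => key l s (Or.inl rfl)] at e2
      omega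
    · have e := congrFun h (l, s)
      have e1 : ∀ γ : Fin n × Fin (K + 1) → ℕ, ps δ I i₀ γ (l, s) = ((s : ℕ) + 1) * γ (l, s) := by
        intro γ
        unfold ps
        rw [if_pos hl, if_neg hl0]
      rw [e1, e1] at e
      exact Nat.eq_of_mul_eq_mul_left (Nat.succ_pos _) e
  · refine Fin.cases ?_ (fun s => key l s (Or.inr hl)) s
    have e := congrFun h (l, 0)
    have e1 : ∀ γ : Fin n × Fin (K + 1) → ℕ, ps δ I i₀ γ (l, 0) = jA γ l - δ := by
      intro γ
      unfold ps
      rw [if_neg hl, if_pos rfl]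
    rw [e1, e1] at e
    have e2 : jA α l = jA β l := by
      have := h2 l hl
      have := h2' l hl
      omega
    rw [jA_succ, jA_succ, Finset.sum_congr rfl fun s _ => key l s (Or.inr hl)] at e2
    omega

theorem prod_coeff (δ : ℕ) (I : Finset (Fin n)) (i₀ : Fin n) (h0 : i₀ ∈ I)
    (α : Fin n × Fin (K + 1) → ℕ) :
    (jA α i₀ - I.card * δ + I.card - 1).choose I.card * ∏ l ∈ Iᶜ, (jA α l - δ) =
      ∏ q, PowerSeries.coeff (ps δ I i₀ α q) (fs I i₀ q) := by
  classical
  rw [Fintype.prod_prod_type]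
  have h1 : ∀ l, ∏ s, PowerSeries.coeff (ps δ I i₀ α (l, s)) (fs I i₀ (l, s)) =
      if l ∈ I then (if l = i₀ then (jA α i₀ - I.card * δ + I.card - 1).choose I.card else 1)
      else jA α l - δ := by
    intro l
    by_cases hl : l ∈ I
    · rw [if_pos hl]
      by_cases hl0 : l = i₀
      · rw [if_pos hl0, Fin.prod_univ_succ, Finset.prod_eq_one, mul_one]
        · unfold ps fs
          rw [if_pos hl, if_pos hl0, if_pos rfl, if_pos hl, if_pos hl0, if_pos rfl, BB,
            PowerSeries.coeff_mk]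
        · intro s _
          unfold ps fs
          rw [if_pos hl, if_pos hl0, if_neg (Fin.succ_ne_zero s), if_pos hl, if_pos hl0,
            if_neg (Fin.succ_ne_zero s)]
          exact coeff_geo_mul _ _
      · rw [if_neg hl0, Finset.prod_eq_one]
        intro s _
        unfold ps fs
        rw [if_pos hl, if_neg hl0, if_pos hl, if_neg hl0]
        exact coeff_geo_mul _ _
    · rw [if_neg hl, Fin.prod_univ_succ, Finset.prod_eq_one, mul_one]
      · unfold ps fs
        rw [if_neg hl, if_pos rfl, if_neg hl, if_pos rfl, VV, PowerSeries.coeff_mk]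
      · intro s _
        unfold ps fs
        rw [if_neg hl, if_neg (Fin.succ_ne_zero s), if_neg hl, if_neg (Fin.succ_ne_zero s)]
        exact coeff_geo_mul _ _
  rw [Finset.prod_congr rfl fun l _ => h1 l, Finset.prod_ite]
  have h2 : (Finset.univ.filter fun l => l ∈ I) = I := by
    ext l
    simp
  have h3 : (Finset.univ.filter fun l => ¬ l ∈ I) = Iᶜ := by
    ext l
    simp
  rw [h2, h3, Finset.prod_ite_eq' I i₀, if_pos h0]

theorem nuc : NucStmt := by
  classical
  intro n k σ δ I i₀ hk h0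
  obtain ⟨K, rfl⟩ : ∃ K, k = K + 1 := ⟨k - 1, by omega⟩
  rw [← prod_fs I i₀ h0]
  unfold cc
  set g : (Fin n × Fin (K + 1) → ℕ) → ℕ := fun α =>
    (jA α i₀ - I.card * δ + I.card - 1).choose I.card * ∏ l ∈ Iᶜ, (jA α l - δ) with hg
  set S := (JS n (K + 1) (n * δ + σ)).filter
    (fun α => I.card * δ ≤ jA α i₀ ∧ ∀ l ∉ I, δ ≤ jA α l) with hS
  have hcard : 0 < I.card := Finset.card_pos.mpr ⟨i₀, h0⟩
  have h1 : ∑ α ∈ JS n (K + 1) (n * δ + σ), g α = ∑ α ∈ S, g α := by
    symm
    apply Finset.sum_subset (Finset.filter_subset _ _)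
    intro α hα hn
    by_cases ha : I.card * δ ≤ jA α i₀
    · have hb : ¬ ∀ l ∉ I, δ ≤ jA α l := by
        intro hb
        exact hn (Finset.mem_filter.mpr ⟨hα, ha, hb⟩)
      push Not at hb
      obtain ⟨l, hl, hlt⟩ := hb
      have : ∏ l ∈ Iᶜ, (jA α l - δ) = 0 :=
        Finset.prod_eq_zero (Finset.mem_compl.mpr hl) (by omega)
      show _ * _ = 0
      rw [this, mul_zero]
    · have : (jA α i₀ - I.card * δ + I.card - 1).choose I.card = 0 :=
        Nat.choose_eq_zero_of_lt (by omega)
      show _ * _ = 0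
      rw [this, zero_mul]
  refine (le_of_eq h1).trans ?_
  refine coeff_prod_ge (fs I i₀) σ S (ps δ I i₀) g ?_ ?_ ?_
  · intro α hα β hβ h
    have hα' := (Finset.mem_filter.mp (Finset.mem_coe.mp hα)).2
    have hβ' := (Finset.mem_filter.mp (Finset.mem_coe.mp hβ)).2
    exact ps_inj δ I i₀ h0 α β hα'.1 hα'.2 hβ'.1 hβ'.2 h
  · intro α hα
    have hα' := Finset.mem_filter.mp hα
    have hw : jwt α = n * δ + σ := by
      have := hα'.1
      unfold JS at this
      exact (Finset.mem_filter.mp this).2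
    rw [Fintype.sum_prod_type]
    have h2 := Finset.sum_congr (rfl : (Finset.univ : Finset (Fin n)) = Finset.univ)
      fun l _ => sum_ps δ I i₀ α hα'.2.1 hα'.2.2 l
    rw [Finset.sum_add_distrib] at h2
    have h3 : ∑ l : Fin n, (if l ∈ I then (if l = i₀ then I.card * δ else 0) else δ) = n * δ := by
      rw [Finset.sum_ite]
      have h4 : (Finset.univ.filter fun l => l ∈ I) = I := by
        ext l
        simp
      have h5 : (Finset.univ.filter fun l => ¬ l ∈ I).card = n - I.card := by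
        have h6 := Finset.card_filter_add_card_filter_not (s := (Finset.univ : Finset (Fin n))) (fun l => l ∈ I)
        rw [h4, Finset.card_univ, Fintype.card_fin] at h6
        omega
      rw [h4, Finset.sum_ite_eq' I i₀, if_pos h0, Finset.sum_const, h5, smul_eq_mul, ← add_mul]
      congr 1
      have : I.card ≤ n := by
        simpa using Finset.card_le_univ I
      omega
    have h7 : ∑ l : Fin n, ∑ s : Fin (K + 1), ((s : ℕ) + 1) * α (l, s) = n * δ + σ := hw
    rw [h3, h7] at h2
    omega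
  · intro α hα
    exact le_of_eq (prod_coeff δ I i₀ h0 α)

end

end Pool.Agent.PN.H96
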